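import Pool.Agent.R451.Sun42Main

set_option autoImplicit false

namespace Pool.Agent.Results.MP_42cda2_nt.PowerOfFourUnique

/-- Let `a, b, c` be positive integers with squarefree greatest common divisor such that for every
positive integer `n` there are natural numbers `x, y, z, w` with
`n ^ 2 = x ^ 2 + y ^ 2 + z ^ 2 + w ^ 2` and `a x + b y + c z` a power of four.  Then
`{a, b, c} = {1, 2, 3}` as multisets. -/
theorem result (a b c : ℕ) (ha : 0 < a) (hb : 0 < b) (hc : 0 < c)
    (hg : Squarefree (Nat.gcd a (Nat.gcd b c)))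
    (hP : ∀ n : ℕ, 0 < n → ∃ x y z w : ℕ, n ^ 2 = x ^ 2 + y ^ 2 + z ^ 2 + w ^ 2 ∧
      ∃ k : ℕ, a * x + b * y + c * z = 4 ^ k) :
    ({a, b, c} : Multiset ℕ) = {1, 2, 3} :=
  Pool.Agent.R451.Sun42.main ha hb hc hg hP

end Pool.Agent.Results.MP_42cda2_nt.PowerOfFourUnique
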